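import Pool.Agent.MP_5f72fe_nt.H3.SpecC

/-! Covariance of the Fourier coefficients of the theta family. -/

namespace Pool.Agent.MP_5f72fe_nt.H95

open Complex Filter Topology MeasureTheory Set Pool.Agent.MP_5f72fe_nt.H3
open scoped Real

theorem cont_E : Continuous E := by
  unfold E
  fun_prop

theorem XX_per (hJ : RowCHI) (N : ℕ) (a δ b : ℤ) : XX N a δ (b + N) = XX N a δ b := by
  unfold XX
  refine Finset.sum_congr rfl fun c _ => ?_
  have h := hJ.per N a b c 0 1 0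
  simp only [mul_zero, add_zero, mul_one] at h
  rw [h]

theorem thX_smul (N : ℕ) (X : ℤ → ℂ) (x : ℂ) (μ : ℕ) (τ w : ℂ) :
    thX N (fun b => x * X b) μ τ w = x * thX N X μ τ w := by
  unfold thX
  rw [← tsum_mul_left]
  refine tsum_congr fun b => ?_
  split_ifs
  · ring
  · ring

theorem exp_mid (A B u : ℝ) (h0 : 0 ≤ u) (h1 : u ≤ 1) :
    Real.exp (-(2 * π * (A + u * B))) ≤ Real.exp (-(2 * π * A)) + Real.exp (-(2 * π * (A + B))) := by
  have hp := Real.pi_pos
  rcases le_total 0 B with hB | hB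
  · have : Real.exp (-(2 * π * (A + u * B))) ≤ Real.exp (-(2 * π * A)) := by
      apply Real.exp_le_exp.2
      have := mul_nonneg h0 hB
      nlinarith
    linarith [Real.exp_pos (-(2 * π * (A + B)))]
  · have : Real.exp (-(2 * π * (A + u * B))) ≤ Real.exp (-(2 * π * (A + B))) := by
      apply Real.exp_le_exp.2
      have : 0 ≤ (1 - u) * (-B) := mul_nonneg (by linarith) (by linarith)
      nlinarith
    linarith [Real.exp_pos (-(2 * π * A))]

theorem thX_cont (hJ : RowJH) (hT : RowTH) (N : ℕ) (X : ℤ → ℂ) (hN : Odd N)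
    (hX : ∀ b, X (b + N) = X b) (μ : ℕ) (τ l : ℂ) (hτ : 0 < τ.im) :
    ContinuousOn (fun u : ℝ => thX N X μ τ (l * u / N)) (Icc 0 1) := by
  unfold thX
  have s0 := (hT N X hN hX τ 0 hτ 0 (by norm_num)).1
  have s1 := (hT N X hN hX τ (l / N) hτ 0 (by norm_num)).1
  refine continuousOn_tsum (fun b => ?_) (s0.add s1) fun b u hu => ?_
  · split_ifs
    · refine Continuous.continuousOn ?_
      refine continuous_const.mul (cont_E.comp ?_)
      fun_prop
    · exact continuousOn_const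
  · split_ifs
    · rw [norm_mul, norm_mul, norm_mul, ← mul_add]
      refine mul_le_mul_of_nonneg_left ?_ (norm_nonneg _)
      rw [hJ.norm, hJ.norm, hJ.norm]
      have e1 : ((b : ℂ) ^ 2 * τ / (4 * N) + b * (l * u / N)).im =
          ((b : ℂ) ^ 2 * τ / (4 * N)).im + u * ((b : ℂ) * (l / N)).im := by
        have : (b : ℂ) * (l * u / N) = (u : ℂ) * (b * (l / N)) := by ring
        rw [this, Complex.add_im, Complex.im_ofReal_mul]
      have e0 : ((b : ℂ) ^ 2 * τ / (4 * N) + b * 0).im = ((b : ℂ) ^ 2 * τ / (4 * N)).im := by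
        rw [mul_zero, add_zero]
      rw [e1, e0, Complex.add_im]
      exact exp_mid _ _ u hu.1 hu.2
    · rw [norm_zero]
      positivity

theorem Tt_int (hJ : RowJH) (hC : RowCHI) (hT : RowTH) (N : ℕ) (hN : Odd N) (a δ : ℤ) (m μ : ℕ)
    (τ : ℂ) (hτ : 0 < τ.im) :
    IntervalIntegrable (fun u : ℝ => Tt N a δ μ τ u * E (-(m * u))) volume 0 1 := by
  apply ContinuousOn.intervalIntegrable
  rw [uIcc_of_le zero_le_one]
  unfold Tt
  refine ContinuousOn.mul (ContinuousOn.mul ?_ ?_) ?_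
  · refine Continuous.continuousOn (cont_E.comp ?_)
    fun_prop
  · exact thX_cont hJ hT N _ hN (XX_per hC N a δ) μ τ _ hτ
  · refine Continuous.continuousOn (cont_E.comp ?_)
    fun_prop

theorem Tt_S (hJ : RowJH) (hC : RowCHI) (hT : RowTH) (hX : RowXFT) (N : ℕ) (hN : Odd N)
    (hs : Squarefree N) (a δ : ℤ) (μ : ℕ) (hμ : μ < 2) (τ : ℂ) (hτ : 0 < τ.im) (u : ℝ) :
    Tt N a δ μ (-1 / τ) u = GS N / (√N : ℝ) * Jh τ *
      ((Tt N δ (-a) 0 τ u + (-1) ^ μ * Tt N δ (-a) 1 τ u) / (√2 : ℝ)) := by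
  have hτ0 : τ ≠ 0 := by
    rintro rfl
    simp at hτ
  have hN0 : (N : ℂ) ≠ 0 := by
    have := hN.pos
    exact_mod_cast this.ne'
  have h := (hT N (XX N a δ) hN (XX_per hC N a δ) τ ((δ * τ + ((-a : ℤ) : ℂ)) * u / N) hτ μ hμ).2
  have hh : hat N (XX N a δ) = fun b => GS N / (√N : ℝ) * XX N δ (-a) b :=
    funext fun b => hX N a δ b hN hs
  rw [hh, thX_smul, thX_smul] at h
  unfold Tt
  have e1 : ((a : ℂ) * (-1 / τ) + δ) * u / N = (δ * τ + ((-a : ℤ) : ℂ)) * u / N / τ := by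
    push_cast
    field_simp
    ring
  rw [e1, h]
  have e2 : E (a * (a * (-1 / τ) + δ) * u ^ 2 / N) *
      E (N * ((δ * τ + ((-a : ℤ) : ℂ)) * u / N) ^ 2 / τ) =
      E (δ * (δ * τ + ((-a : ℤ) : ℂ)) * u ^ 2 / N) := by
    rw [← hJ.add]
    congr 1
    push_cast
    field_simp
    ring
  rw [← e2]
  ring

theorem XX_T (hJ : RowJH) (hC : RowCHI) (N : ℕ) (hN : Odd N) (hs : Squarefree N) (a δ b : ℤ)
    (μ : ℕ) (hμ : μ < 2) (hb : b % 2 = μ) :
    XX N a δ b * E (b ^ 2 / (4 * N)) = E (N * μ / 4) * XX N a (δ + a) b := by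
  have hN0 : (N : ℂ) ≠ 0 := by
    have := hN.pos
    exact_mod_cast this.ne'
  unfold XX
  rw [Finset.sum_mul, Finset.mul_sum]
  refine Finset.sum_congr rfl fun c _ => ?_
  by_cases h0 : chi N a b c = 0
  · rw [h0]
    simp
  obtain ⟨s, hs'⟩ := hC.sup N a b c hs h0
  obtain ⟨n, hn⟩ := hN
  have hn' : (N : ℤ) = 2 * n + 1 := by exact_mod_cast hn
  obtain ⟨r, hr⟩ : ∃ r : ℤ, b = 2 * r + μ := ⟨b / 2, by omega⟩
  obtain ⟨t, ht⟩ : ∃ t : ℤ, s = N * μ + 4 * t := by
    have hm : μ = 0 ∨ μ = 1 := by omega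
    refine ⟨N * (r ^ 2 + r * μ - a * c) - (n ^ 2 + n) * s, ?_⟩
    rcases hm with rfl | rfl
    · rw [hr, hn'] at hs'
      rw [hn']
      push_cast at hs' ⊢
      linear_combination (-(2 * n + 1 : ℤ)) * hs'
    · rw [hr, hn'] at hs'
      rw [hn']
      push_cast at hs' ⊢
      linear_combination (-(2 * n + 1 : ℤ)) * hs'
  have hsC : (b : ℂ) ^ 2 - 4 * a * (c : ℕ) = N * (N * μ + 4 * t) := by
    rw [ht] at hs'
    exact_mod_cast hs'
  have e : E ((c : ℕ) * δ / N) * E (b ^ 2 / (4 * N)) =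
      E (N * μ / 4) * E ((c : ℕ) * ((δ + a : ℤ) : ℂ) / N) := by
    rw [← hJ.add, ← hJ.add]
    have : ((c : ℕ) : ℂ) * δ / N + b ^ 2 / (4 * N) =
        (N * μ / 4 + (c : ℕ) * ((δ + a : ℤ) : ℂ) / N) + (t : ℤ) := by
      push_cast
      field_simp
      linear_combination hsC
    rw [this, hJ.add, hJ.int, mul_one]
  rw [mul_assoc, e]
  ring

theorem Tt_T (hJ : RowJH) (hC : RowCHI) (N : ℕ) (hN : Odd N) (hs : Squarefree N) (a δ : ℤ)
    (μ : ℕ) (hμ : μ < 2) (τ : ℂ) (u : ℝ) :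
    Tt N a δ μ (τ + 1) u = E (N * μ / 4) * Tt N a (δ + a) μ τ u := by
  unfold Tt
  have e1 : (a : ℂ) * (τ + 1) + δ = a * τ + ((δ + a : ℤ) : ℂ) := by
    push_cast
    ring
  rw [e1, mul_left_comm]
  congr 1
  unfold thX
  rw [← tsum_mul_left]
  refine tsum_congr fun b => ?_
  split_ifs with hb
  · rw [← mul_assoc, ← XX_T hJ hC N hN hs a δ b μ hμ hb, mul_assoc, ← hJ.add]
    congr 2
    ring
  · rw [mul_zero]

theorem sum_neg (N : ℕ) (g : ℤ → ℂ) (hg : ∀ c, g (c + N) = g c) :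
    ∑ c ∈ Finset.range N, g c = ∑ c ∈ Finset.range N, g (-c) := by
  have h1 : ∑ c ∈ Finset.range N, g ((c + 1 : ℕ) : ℤ) = ∑ c ∈ Finset.range N, g c := by
    have a1 := Finset.sum_range_succ (fun c : ℕ => g c) N
    have a2 := Finset.sum_range_succ' (fun c : ℕ => g c) N
    have a3 : g (N : ℕ) = g ((0 : ℕ) : ℤ) := by
      have := hg 0
      simpa using this
    rw [a1, a3] at a2
    exact (add_right_cancel a2).symm
  rw [← h1, ← Finset.sum_range_reflect]
  refine Finset.sum_congr rfl fun c hc => ?_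
  have hc' := Finset.mem_range.1 hc
  rw [← hg (-c)]
  congr 1
  omega

theorem XX_neg (hJ : RowJH) (hC : RowCHI) (N : ℕ) (hN : Odd N) (hs : Squarefree N) (a δ b : ℤ) :
    XX N (-a) (-δ) (-b) = (if N % 4 = 1 then 1 else -1) * XX N a δ b := by
  have hN0 : (N : ℂ) ≠ 0 := by
    have := hN.pos
    exact_mod_cast this.ne'
  have h := sum_neg N (fun c : ℤ => (chi N (-a) (-b) c : ℂ) * E (c * ((-δ : ℤ) : ℂ) / N)) (by
    intro c
    have h1 := hC.per N (-a) (-b) c 0 0 1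
    simp only [mul_zero, add_zero, mul_one] at h1
    have h2 : ((c + N : ℤ) : ℂ) * ((-δ : ℤ) : ℂ) / N = c * ((-δ : ℤ) : ℂ) / N + ((-δ : ℤ) : ℂ) := by
      push_cast
      field_simp
      ring
    simp only [h1, h2, hJ.add, hJ.int, mul_one])
  unfold XX
  simp only [Int.cast_natCast] at h
  rw [h, Finset.mul_sum]
  refine Finset.sum_congr rfl fun c _ => ?_
  rw [hC.neg N a b c hN hs]
  have e : (((-(c : ℤ) : ℤ) : ℂ)) * ((-δ : ℤ) : ℂ) / N = (c : ℕ) * δ / N := by
    push_cast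
    ring
  rw [e]
  split_ifs
  · push_cast
    ring
  · push_cast
    ring

theorem Tt_neg (hJ : RowJH) (hC : RowCHI) (N : ℕ) (hN : Odd N) (hs : Squarefree N) (a δ : ℤ)
    (μ : ℕ) (τ : ℂ) (u : ℝ) :
    Tt N (-a) (-δ) μ τ u = (if N % 4 = 1 then 1 else -1) * Tt N a δ μ τ u := by
  unfold Tt
  have e1 : ((-a : ℤ) : ℂ) * (((-a : ℤ) : ℂ) * τ + ((-δ : ℤ) : ℂ)) = a * (a * τ + δ) := by
    push_cast
    ring
  rw [e1, mul_left_comm]
  congr 1
  unfold thX
  rw [← tsum_mul_left, ← (Equiv.neg ℤ).tsum_eq]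
  refine tsum_congr fun b => ?_
  have hb : (-b) % 2 = b % 2 := by omega
  simp only [Equiv.neg_apply, hb]
  by_cases h : b % 2 = μ
  · rw [if_pos h, if_pos h, XX_neg hJ hC N hN hs, mul_assoc]
    congr 3
    push_cast
    ring
  · rw [if_neg h, if_neg h, mul_zero]

theorem rowFAM : OfFAM := by
  intro hJ hC hT hX hF
  refine ⟨?_, ?_, ?_⟩
  · intro N a δ m μ τ hN hs h0 hμ hτ
    have h0' : (δ, -a) ≠ (0, 0) := by
      intro h
      apply h0
      simp only [Prod.mk.injEq, neg_eq_zero] at h ⊢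
      exact ⟨h.2, h.1⟩
    have hτ' : 0 < (-1 / τ).im := by
      have hτ0 : τ ≠ 0 := by
        rintro rfl
        simp at hτ
      have := Complex.normSq_pos.2 hτ0
      rw [Complex.div_im]
      simp only [neg_im, one_im, neg_zero, zero_mul, zero_div, neg_re, one_re, zero_sub]
      have : 0 < τ.im / normSq τ := div_pos hτ this
      have e : -(-1 * τ.im / normSq τ) = τ.im / normSq τ := by ring
      rw [e]
      exact this
    rw [← hF N a δ m μ _ hN hs h0 hμ hτ', ← hF N δ (-a) m 0 τ hN hs h0' (by norm_num) hτ,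
      ← hF N δ (-a) m 1 τ hN hs h0' (by norm_num) hτ, ← intervalIntegral.integral_const_mul,
      ← intervalIntegral.integral_add (Tt_int hJ hC hT N hN δ (-a) m 0 τ hτ)
        ((Tt_int hJ hC hT N hN δ (-a) m 1 τ hτ).const_mul _), ← intervalIntegral.integral_div,
      ← intervalIntegral.integral_const_mul]
    refine intervalIntegral.integral_congr fun u _ => ?_
    simp only [Tt_S hJ hC hT hX N hN hs a δ μ hμ τ hτ u]
    ring
  · intro N a δ m μ τ hN hs h0 hμ hτ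
    have h0' : (a, δ + a) ≠ (0, 0) := by
      intro h
      apply h0
      simp only [Prod.mk.injEq] at h ⊢
      omega
    have hτ' : 0 < (τ + 1).im := by simpa using hτ
    rw [← hF N a δ m μ _ hN hs h0 hμ hτ', ← hF N a (δ + a) m μ τ hN hs h0' hμ hτ,
      ← intervalIntegral.integral_const_mul]
    refine intervalIntegral.integral_congr fun u _ => ?_
    simp only [Tt_T hJ hC N hN hs a δ μ hμ τ u]
    ring
  · intro N a δ m μ τ hN hs h0 hμ hτ
    have h0' : (-a, -δ) ≠ (0, 0) := by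
      intro h
      apply h0
      simp only [Prod.mk.injEq] at h ⊢
      omega
    rw [← hF N (-a) (-δ) m μ τ hN hs h0' hμ hτ, ← hF N a δ m μ τ hN hs h0 hμ hτ,
      ← intervalIntegral.integral_const_mul]
    refine intervalIntegral.integral_congr fun u _ => ?_
    simp only [Tt_neg hJ hC N hN hs a δ μ τ u]
    ring

end Pool.Agent.MP_5f72fe_nt.H95
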